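import Pool.Agent.Lib.MP_65fa9b_anFD.Main

/-!
# The answer from the local condition
-/

set_option autoImplicit false

open Metric Set

open Pool.Agent.Lib.MP_65fa9b_an

namespace Pool.Agent.Lib.MP_65fa9b_anFD

/-- The positive answer for a Banach space of any dimension, from the local condition in infinite dimension. -/
theorem answer {X : Type*} [NormedAddCommGroup X] [NormedSpace ℝ X]
    (hL : ¬ FiniteDimensional ℝ X → LocalCondition X) {M : Set X} (hM : ¬ Porous M) (p : M) (q : X) :
    Nonempty (Lip0 M p ≃L[ℝ] Lip0 X q) := by
  by_cases hX : FiniteDimensional ℝ X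
  · exact main_fd X hM p q
  · exact main_equiv_gen hX (hL hX) hM p q

/-- All Lipschitz spaces over subsets are complemented, in a space of any dimension which is not zero. -/
theorem answer_complemented {X : Type*} [NormedAddCommGroup X] [NormedSpace ℝ X]
    (hL : ¬ FiniteDimensional ℝ X → LocalCondition X) {M : Set X} (p : M) (q : X) [Nontrivial X] :
    Fac (Lip0 M p) (Lip0 X q) := by
  by_cases hX : FiniteDimensional ℝ X
  · have : ProperSpace X := FiniteDimensional.proper ℝ X
    have : SecondCountableTopology X := inferInstance
    have hne : Nonempty M := ⟨p⟩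
    obtain ⟨C, hC⟩ := facC_FS (localCondition_fd X)
    let _ : TopologicalSpace (Finset ℕ) := ⊥
    have : DiscreteTopology (Finset ℕ) := ⟨rfl⟩
    have h1 := fac_of_local p (TopologicalSpace.denseSeq M) (TopologicalSpace.denseRange_denseSeq M) C
      fun i => hC _ _ _
    obtain ⟨B⟩ := ballData_nat (X := X)
    exact ((h1.trans (fac_of_injective (fun i : Finset ℕ => Encodable.encode i) Encodable.encode_injective)).trans
      ((B.fac ⟨0, mem_univ 0⟩).trans (Fac.of_equiv (univEquiv ⟨0, mem_univ 0⟩)))).trans
        (Fac.of_equiv (rebaseEquiv (0 : X) q))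
  · exact complemented_gen hX (hL hX) p q

end Pool.Agent.Lib.MP_65fa9b_anFD
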