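import Pool.Agent.Lib.MP_65fa9b_an.MainGen

/-!
# Linear extension of Lipschitz functions from finite subsets of a finite-dimensional space

For a finite subset `F` of a finite-dimensional normed space `X` the operator is an average of values of `f` near `x`:
`E f(x) = ∫ h(x, y) g_f(y) dy / ∫ h(x, y) dy`, where `h(x, y) = max(0, d(x, F) / 2 - |y - x|)` and `g_f(y)` is a convex
combination of the values of `f` at the points of `F` whose distance to `y` is at most `2 d(y, F)`. Its norm is at most `63 * 3 ^ dim X`.
-/

set_option autoImplicit false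
set_option linter.unusedSectionVars false

open Metric Set MeasureTheory

namespace Pool.Agent.Lib.MP_65fa9b_anFD

variable {X : Type*} [NormedAddCommGroup X] [NormedSpace ℝ X]

section weights

variable (F : Set X) [Fintype F]

/-- The weight of `a` at `y`. -/
noncomputable def wt (a : F) (y : X) : ℝ := max 0 (2 * infDist y F - dist y a)

/-- The sum of the weights. -/
noncomputable def ws (y : X) : ℝ := ∑ a : F, wt F a y

/-- The convex combination of values of `f`. -/
noncomputable def gg (f : F → ℝ) (y : X) : ℝ := (∑ a : F, wt F a y * f a) / ws F y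

/-- The kernel. -/
noncomputable def hh (x y : X) : ℝ := max 0 (infDist x F / 2 - dist y x)

theorem wt_nonneg (a : F) (y : X) : 0 ≤ wt F a y := le_max_left _ _

theorem hh_nonneg (x y : X) : 0 ≤ hh F x y := le_max_left _ _

theorem wt_continuous (a : F) : Continuous (wt F a) := by
  unfold wt
  exact continuous_const.max ((continuous_const.mul (continuous_infDist_pt F)).sub
    (continuous_id.dist continuous_const))

theorem hh_continuous (x : X) : Continuous (hh F x) := by
  unfold hh
  exact continuous_const.max (continuous_const.sub (continuous_id.dist continuous_const))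

theorem exists_near [Nonempty F] (y : X) : ∃ a : F, dist y a = infDist y F := by
  obtain ⟨a, ha⟩ := Finite.exists_min fun a : F => dist y a
  refine ⟨a, le_antisymm ?_ (infDist_le_dist_of_mem a.2)⟩
  have hne : F.Nonempty := ⟨a, a.2⟩
  exact (le_infDist hne).2 fun b hb => ha ⟨b, hb⟩

theorem ws_pos [Nonempty F] {y : X} (hy : 0 < infDist y F) : 0 < ws F y := by
  obtain ⟨a, ha⟩ := exists_near F y
  have h1 : wt F a y = infDist y F := by
    unfold wt
    rw [ha, max_eq_right (by linarith)]
    ring
  unfold ws
  refine lt_of_lt_of_le (h1 ▸ hy) (Finset.single_le_sum (f := fun a => wt F a y) (fun b _ => wt_nonneg F b y)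
    (Finset.mem_univ a))

theorem abs_gg_sub_le [Nonempty F] {f : F → ℝ} {y : X} (hy : 0 < infDist y F) {c K : ℝ}
    (h : ∀ a : F, dist y a ≤ 2 * infDist y F → |f a - c| ≤ K) : |gg F f y - c| ≤ K := by
  have hw := ws_pos F hy
  have e : gg F f y - c = (∑ a : F, wt F a y * (f a - c)) / ws F y := by
    unfold gg
    rw [eq_div_iff hw.ne', sub_mul, div_mul_cancel₀ _ hw.ne']
    simp only [mul_sub, Finset.sum_sub_distrib]
    unfold ws
    rw [Finset.mul_sum]
    congr 1
    refine Finset.sum_congr rfl fun a _ => mul_comm _ _
  rw [e, abs_div, abs_of_pos hw, div_le_iff₀ hw]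
  calc |∑ a : F, wt F a y * (f a - c)| ≤ ∑ a : F, |wt F a y * (f a - c)| := Finset.abs_sum_le_sum_abs _ _
    _ ≤ ∑ a : F, wt F a y * K := by
        refine Finset.sum_le_sum fun a _ => ?_
        rw [abs_mul, abs_of_nonneg (wt_nonneg F a y)]
        rcases eq_or_lt_of_le (wt_nonneg F a y) with h0 | h0
        · rw [← h0, zero_mul, zero_mul]
        · refine mul_le_mul_of_nonneg_left (h a ?_) h0.le
          by_contra hcon
          push Not at hcon
          have : wt F a y = 0 := by
            unfold wt
            exact max_eq_left (by linarith)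
          linarith
    _ = K * ws F y := by
        unfold ws
        rw [Finset.mul_sum]
        refine Finset.sum_congr rfl fun a _ => mul_comm _ _

theorem gg_bdd (f : F → ℝ) : ∃ B : ℝ, ∀ y, |gg F f y| ≤ B := by
  refine ⟨∑ a : F, |f a|, fun y => ?_⟩
  have hB : 0 ≤ ∑ a : F, |f a| := Finset.sum_nonneg fun _ _ => abs_nonneg _
  have hw : 0 ≤ ws F y := Finset.sum_nonneg fun a _ => wt_nonneg F a y
  rcases eq_or_lt_of_le hw with h0 | h0
  · unfold gg
    rw [← h0, div_zero, abs_zero]
    exact hB
  · unfold gg
    rw [abs_div, abs_of_pos h0, div_le_iff₀ h0]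
    calc |∑ a : F, wt F a y * f a| ≤ ∑ a : F, |wt F a y * f a| := Finset.abs_sum_le_sum_abs _ _
      _ ≤ ∑ a : F, wt F a y * ∑ b : F, |f b| := by
          refine Finset.sum_le_sum fun a _ => ?_
          rw [abs_mul, abs_of_nonneg (wt_nonneg F a y)]
          exact mul_le_mul_of_nonneg_left (Finset.single_le_sum (f := fun b => |f b|)
            (fun _ _ => abs_nonneg _) (Finset.mem_univ a)) (wt_nonneg F a y)
      _ = _ := by
          rw [← Finset.sum_mul]
          unfold ws
          ring

theorem gg_add (f f' : F → ℝ) (y : X) : gg F (fun a => f a + f' a) y = gg F f y + gg F f' y := by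
  unfold gg
  simp only [mul_add, Finset.sum_add_distrib, add_div]

theorem gg_smul (c : ℝ) (f : F → ℝ) (y : X) : gg F (fun a => c * f a) y = c * gg F f y := by
  unfold gg
  rw [← mul_div_assoc, Finset.mul_sum]
  congr 1
  refine Finset.sum_congr rfl fun a _ => ?_
  ring

theorem gg_measurable [MeasurableSpace X] [BorelSpace X] (f : F → ℝ) : Measurable (gg F f) := by
  unfold gg ws
  refine Measurable.div ?_ ?_
  · exact Finset.measurable_fun_sum _ fun a _ => ((wt_continuous F a).measurable.mul_const _)
  · exact Finset.measurable_fun_sum _ fun a _ => (wt_continuous F a).measurable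

theorem hh_eq_zero {x y : X} {r : ℝ} (hr : infDist x F / 2 ≤ r) (hy : r ≤ dist y x) : hh F x y = 0 :=
  max_eq_left (by linarith)

theorem hh_le (x y : X) : hh F x y ≤ infDist x F / 2 :=
  max_le (by have := infDist_nonneg (x := x) (s := F); linarith) (by have := dist_nonneg (x := y) (y := x); linarith)

theorem abs_hh_sub_le (x x' y : X) : |hh F x y - hh F x' y| ≤ 3 / 2 * dist x x' := by
  unfold hh
  have h1 : |max 0 (infDist x F / 2 - dist y x) - max 0 (infDist x' F / 2 - dist y x')| ≤
      |(infDist x F / 2 - dist y x) - (infDist x' F / 2 - dist y x')| := by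
    have := abs_max_sub_max_le_abs (infDist x F / 2 - dist y x) (infDist x' F / 2 - dist y x') (0 : ℝ)
    rwa [max_comm, max_comm (infDist x' F / 2 - dist y x')] at this
  refine h1.trans ?_
  have h2 : |infDist x F - infDist x' F| ≤ dist x x' := by
    rw [abs_le]
    constructor
    · have := infDist_le_infDist_add_dist (s := F) (x := x') (y := x)
      rw [dist_comm] at this
      linarith
    · have := infDist_le_infDist_add_dist (s := F) (x := x) (y := x')
      linarith
  have h3 : |dist y x - dist y x'| ≤ dist x x' := by
    have := abs_dist_sub_le x x' y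
    rwa [dist_comm x y, dist_comm x' y] at this
  rw [abs_le] at h2 h3 ⊢
  constructor <;> linarith [h2.1, h2.2, h3.1, h3.2]

end weights

section average

variable [FiniteDimensional ℝ X] [MeasurableSpace X] [BorelSpace X] (μ : Measure X) [μ.IsAddHaarMeasure]
  (F : Set X) [Fintype F]

theorem hh_integrable (x : X) : Integrable (hh F x) μ := by
  have : ProperSpace X := FiniteDimensional.proper ℝ X
  refine (hh_continuous F x).integrable_of_hasCompactSupport ?_
  refine HasCompactSupport.intro (K := closedBall x (infDist x F / 2)) (isCompact_closedBall _ _) fun y hy => ?_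
  rw [mem_closedBall, not_le] at hy
  exact hh_eq_zero F le_rfl hy.le

theorem hh_mul_integrable (f : F → ℝ) (x : X) : Integrable (fun y => hh F x y * gg F f y) μ := by
  obtain ⟨B, hB⟩ := gg_bdd F f
  exact (hh_integrable μ F x).mul_bdd (c := B) (gg_measurable F f).aestronglyMeasurable
    (Filter.Eventually.of_forall hB)

/-- The total mass of the kernel. -/
noncomputable def HH (x : X) : ℝ := ∫ y, hh F x y ∂μ

/-- The average. -/
noncomputable def AA (f : F → ℝ) (x : X) : ℝ := (∫ y, hh F x y * gg F f y ∂μ) / HH μ F x

/-- The volume of the unit ball. -/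
noncomputable def vv : ℝ := μ.real (ball (0 : X) 1)

theorem vv_pos : 0 < vv μ := by
  unfold vv
  have h1 : 0 < μ (ball (0 : X) 1) := measure_ball_pos μ _ one_pos
  have h2 : μ (ball (0 : X) 1) < ⊤ := measure_ball_lt_top
  exact ENNReal.toReal_pos h1.ne' h2.ne

theorem real_ball (x : X) {r : ℝ} (hr : 0 ≤ r) : μ.real (closedBall x r) = r ^ (Module.finrank ℝ X) * vv μ := by
  unfold vv
  rw [Measure.addHaar_real_closedBall μ x hr]

theorem HH_ge {x : X} (hx : 0 < infDist x F) :
    infDist x F / 4 * ((infDist x F / 4) ^ (Module.finrank ℝ X) * vv μ) ≤ HH μ F x := by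
  have hd : 0 ≤ infDist x F / 4 := by linarith
  rw [← real_ball μ x hd]
  have h1 : ∫ y in closedBall x (infDist x F / 4), hh F x y ∂μ ≤ HH μ F x :=
    setIntegral_le_integral (hh_integrable μ F x) (Filter.Eventually.of_forall fun y => hh_nonneg F x y)
  refine le_trans ?_ h1
  have h2 : ∫ _y in closedBall x (infDist x F / 4), (infDist x F / 4) ∂μ ≤
      ∫ y in closedBall x (infDist x F / 4), hh F x y ∂μ := by
    refine setIntegral_mono_on ?_ (hh_integrable μ F x).integrableOn measurableSet_closedBall fun y hy => ?_
    · exact integrableOn_const (measure_closedBall_lt_top).ne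
    · rw [mem_closedBall] at hy
      unfold hh
      exact (by linarith : infDist x F / 4 ≤ infDist x F / 2 - dist y x).trans (le_max_right _ _)
  rw [setIntegral_const, smul_eq_mul, mul_comm] at h2
  exact h2

theorem HH_pos {x : X} (hx : 0 < infDist x F) : 0 < HH μ F x := by
  have := HH_ge μ F hx
  have := vv_pos μ
  have : 0 < infDist x F / 4 * ((infDist x F / 4) ^ (Module.finrank ℝ X) * vv μ) := by positivity
  linarith

/-- The average of a convex combination is near a value. -/
theorem AA_sub [Nonempty F] {f : F → ℝ} {x : X} (hx : 0 < infDist x F) (c : ℝ) :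
    AA μ F f x - c = (∫ y, hh F x y * (gg F f y - c) ∂μ) / HH μ F x := by
  have hH := HH_pos μ F hx
  unfold AA
  rw [eq_div_iff hH.ne', sub_mul, div_mul_cancel₀ _ hH.ne']
  have e : (fun y => hh F x y * (gg F f y - c)) = fun y => hh F x y * gg F f y - c * hh F x y := by
    funext y
    ring
  rw [e, integral_sub (hh_mul_integrable μ F f x) ((hh_integrable μ F x).const_mul c), integral_const_mul]
  rfl

theorem infDist_le (x y : X) : infDist y F ≤ infDist x F + dist y x := infDist_le_infDist_add_dist

theorem AA_near [Nonempty F] {f : F → ℝ} {L : ℝ} (hL : 0 ≤ L) (hf : ∀ a b, |f a - f b| ≤ L * dist a b) {x : X}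
    (hx : 0 < infDist x F) (a : F) : |AA μ F f x - f a| ≤ 5 * L * dist x a := by
  have hH := HH_pos μ F hx
  rw [AA_sub μ F hx, abs_div, abs_of_pos hH, div_le_iff₀ hH]
  have h0 : infDist x F ≤ dist x a := infDist_le_dist_of_mem a.2
  calc |∫ y, hh F x y * (gg F f y - f a) ∂μ| ≤ ∫ y, |hh F x y * (gg F f y - f a)| ∂μ := abs_integral_le_integral_abs
    _ ≤ ∫ y, hh F x y * (5 * L * dist x a) ∂μ := by
        refine integral_mono_of_nonneg (Filter.Eventually.of_forall fun y => abs_nonneg _)
          ((hh_integrable μ F x).mul_const _) (Filter.Eventually.of_forall fun y => ?_)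
        show |hh F x y * (gg F f y - f a)| ≤ hh F x y * (5 * L * dist x a)
        rw [abs_mul, abs_of_nonneg (hh_nonneg F x y)]
        rcases eq_or_lt_of_le (hh_nonneg F x y) with h1 | h1
        · rw [← h1, zero_mul, zero_mul]
        · refine mul_le_mul_of_nonneg_left ?_ h1.le
          have hy : dist y x < infDist x F / 2 := by
            by_contra hcon
            push Not at hcon
            rw [hh_eq_zero F le_rfl hcon] at h1
            exact lt_irrefl _ h1
          have h2 : infDist x F ≤ infDist y F + dist y x := by
            have := infDist_le F y x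
            rwa [dist_comm] at this
          have h3 := infDist_le F x y
          refine abs_gg_sub_le F (by linarith) fun b hb => (hf b a).trans ?_
          have h4 : dist b a ≤ dist y b + dist y x + dist x a := by
            rw [Subtype.dist_eq]
            calc dist (b : X) a ≤ dist (b : X) y + dist y x + dist x a := dist_triangle4 _ _ _ _
              _ = _ := by rw [dist_comm (b : X) y]
          calc L * dist b a ≤ L * (5 * dist x a) := mul_le_mul_of_nonneg_left (by linarith) hL
            _ = _ := by ring
    _ = 5 * L * dist x a * HH μ F x := by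
        rw [integral_mul_const]
        unfold HH
        ring

theorem AA_lip [Nonempty F] {f : F → ℝ} {L : ℝ} (hL : 0 ≤ L) (hf : ∀ a b, |f a - f b| ≤ L * dist a b) {x x' : X}
    (hx : 0 < infDist x F) (hx' : 0 < infDist x' F) (hle : infDist x' F ≤ infDist x F) :
    |AA μ F f x - AA μ F f x'| ≤ 63 * 3 ^ (Module.finrank ℝ X) * L * dist x x' := by
  obtain ⟨a, ha⟩ := exists_near F x
  have h3 : (1 : ℝ) ≤ 3 ^ (Module.finrank ℝ X) := one_le_pow₀ (by norm_num)
  have hLd : 0 ≤ L * dist x x' := mul_nonneg hL dist_nonneg
  rcases le_or_gt (infDist x F / 4) (dist x x') with hfar | hnear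
  · have h1 := AA_near μ F hL hf hx a
    have h2 := AA_near μ F hL hf hx' a
    have h4 : dist x' a ≤ dist x x' + dist x a := by
      have := dist_triangle x' x a
      rwa [dist_comm x' x] at this
    have h5 : |AA μ F f x - AA μ F f x'| ≤ 5 * L * dist x a + 5 * L * dist x' a := by
      have := abs_sub_le (AA μ F f x) (f a) (AA μ F f x')
      rw [abs_sub_comm (f a)] at this
      linarith
    have h6 : 5 * L * dist x a + 5 * L * dist x' a ≤ 45 * (L * dist x x') := by
      have h7 : L * dist x' a ≤ L * (dist x x' + dist x a) := mul_le_mul_of_nonneg_left h4 hL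
      have h8 : L * dist x a ≤ L * (4 * dist x x') := mul_le_mul_of_nonneg_left (by rw [ha]; linarith) hL
      nlinarith
    calc _ ≤ 45 * (L * dist x x') := h5.trans h6
      _ ≤ 63 * 3 ^ (Module.finrank ℝ X) * (L * dist x x') := by
          refine mul_le_mul_of_nonneg_right ?_ hLd
          nlinarith
      _ = _ := by ring
  · set δ := infDist x F with hδ
    have hH := HH_pos μ F hx
    have hH' := HH_pos μ F hx'
    set D : ℝ := ∫ y, |hh F x y - hh F x' y| ∂μ with hD
    have hDint : Integrable (fun y => |hh F x y - hh F x' y|) μ :=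
      ((hh_integrable μ F x).sub (hh_integrable μ F x')).abs
    have hD0 : 0 ≤ D := integral_nonneg fun y => abs_nonneg _
    have hHH : |HH μ F x - HH μ F x'| ≤ D := by
      unfold HH
      rw [← integral_sub (hh_integrable μ F x) (hh_integrable μ F x')]
      exact abs_integral_le_integral_abs
    -- the difference
    have hK : ∀ y, (0 < hh F x y ∨ 0 < hh F x' y) → |gg F f y - f a| ≤ 21 / 4 * (L * δ) := by
      intro y hy
      have hyx : dist y x ≤ 3 / 4 * δ := by
        rcases hy with h1 | h1
        · by_contra hcon
          push Not at hcon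
          rw [hh_eq_zero F (r := 3 / 4 * δ) (by rw [← hδ]; linarith) hcon.le] at h1
          exact lt_irrefl _ h1
        · have h2 : dist y x' < infDist x' F / 2 := by
            by_contra hcon
            push Not at hcon
            rw [hh_eq_zero F le_rfl hcon] at h1
            exact lt_irrefl _ h1
          have h4 := dist_triangle y x' x
          rw [dist_comm x' x] at h4
          linarith
      have h2 : δ ≤ infDist y F + dist y x := by
        have := infDist_le F y x
        rwa [dist_comm] at this
      have h5 := infDist_le F x y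
      refine abs_gg_sub_le F (by linarith) fun b hb => (hf b a).trans ?_
      have h4 : dist b a ≤ dist y b + dist y x + dist x a := by
        rw [Subtype.dist_eq]
        calc dist (b : X) a ≤ dist (b : X) y + dist y x + dist x a := dist_triangle4 _ _ _ _
          _ = _ := by rw [dist_comm (b : X) y]
      calc L * dist b a ≤ L * (21 / 4 * δ) := mul_le_mul_of_nonneg_left (by rw [ha] at h4; linarith) hL
        _ = _ := by ring
    have hKK : 0 ≤ 21 / 4 * (L * δ) := by positivity
    have e1 : AA μ F f x - AA μ F f x' = ∫ y, (hh F x y / HH μ F x - hh F x' y / HH μ F x') * (gg F f y - f a) ∂μ := by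
      have i1 : Integrable (fun y => hh F x y * (gg F f y - f a)) μ := by
        have e : (fun y => hh F x y * (gg F f y - f a)) = fun y => hh F x y * gg F f y - f a * hh F x y := by
          funext y
          ring
        rw [e]
        exact (hh_mul_integrable μ F f x).sub ((hh_integrable μ F x).const_mul _)
      have i2 : Integrable (fun y => hh F x' y * (gg F f y - f a)) μ := by
        have e : (fun y => hh F x' y * (gg F f y - f a)) = fun y => hh F x' y * gg F f y - f a * hh F x' y := by
          funext y
          ring
        rw [e]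
        exact (hh_mul_integrable μ F f x').sub ((hh_integrable μ F x').const_mul _)
      have e2 : AA μ F f x - AA μ F f x' = (AA μ F f x - f a) - (AA μ F f x' - f a) := by ring
      rw [e2, AA_sub μ F hx, AA_sub μ F hx', ← integral_div, ← integral_div, ← integral_sub (i1.div_const _) (i2.div_const _)]
      refine integral_congr_ae (Filter.Eventually.of_forall fun y => ?_)
      show hh F x y * (gg F f y - f a) / HH μ F x - hh F x' y * (gg F f y - f a) / HH μ F x' =
        (hh F x y / HH μ F x - hh F x' y / HH μ F x') * (gg F f y - f a)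
      ring
    have hpt : ∀ y, |hh F x y / HH μ F x - hh F x' y / HH μ F x'| ≤
        |hh F x y - hh F x' y| / HH μ F x + hh F x' y * (D / (HH μ F x * HH μ F x')) := by
      intro y
      have e3 : hh F x y / HH μ F x - hh F x' y / HH μ F x' =
          (hh F x y - hh F x' y) / HH μ F x + hh F x' y * ((HH μ F x' - HH μ F x) / (HH μ F x * HH μ F x')) := by
        field_simp
        ring
      rw [e3]
      refine (abs_add_le _ _).trans (add_le_add (le_of_eq ?_) ?_)
      · rw [abs_div, abs_of_pos hH]
      · rw [abs_mul, abs_of_nonneg (hh_nonneg F x' y), abs_div, abs_of_pos (mul_pos hH hH')]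
        refine mul_le_mul_of_nonneg_left ?_ (hh_nonneg F x' y)
        refine div_le_div_of_nonneg_right ?_ (mul_pos hH hH').le
        rw [abs_sub_comm]
        exact hHH
    have hbound : |AA μ F f x - AA μ F f x'| ≤ 21 / 4 * (L * δ) * (2 * D / HH μ F x) := by
      rw [e1]
      calc |∫ y, (hh F x y / HH μ F x - hh F x' y / HH μ F x') * (gg F f y - f a) ∂μ|
          ≤ ∫ y, |(hh F x y / HH μ F x - hh F x' y / HH μ F x') * (gg F f y - f a)| ∂μ := abs_integral_le_integral_abs
        _ ≤ ∫ y, (|hh F x y - hh F x' y| / HH μ F x + hh F x' y * (D / (HH μ F x * HH μ F x'))) * (21 / 4 * (L * δ)) ∂μ := by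
            refine integral_mono_of_nonneg (Filter.Eventually.of_forall fun y => abs_nonneg _)
              (((hDint.div_const _).add ((hh_integrable μ F x').mul_const _)).mul_const _)
              (Filter.Eventually.of_forall fun y => ?_)
            show |(hh F x y / HH μ F x - hh F x' y / HH μ F x') * (gg F f y - f a)| ≤ _
            rw [abs_mul]
            by_cases hy : 0 < hh F x y ∨ 0 < hh F x' y
            · exact mul_le_mul (hpt y) (hK y hy) (abs_nonneg _) ((abs_nonneg _).trans (hpt y))
            · push Not at hy
              have z1 : hh F x y = 0 := le_antisymm hy.1 (hh_nonneg F x y)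
              have z2 : hh F x' y = 0 := le_antisymm hy.2 (hh_nonneg F x' y)
              have z3 : |hh F x y / HH μ F x - hh F x' y / HH μ F x'| * |gg F f y - f a| = 0 := by
                rw [z1, z2]
                simp
              rw [z3]
              exact mul_nonneg ((abs_nonneg _).trans (hpt y)) hKK
        _ = 21 / 4 * (L * δ) * (2 * D / HH μ F x) := by
            rw [integral_mul_const, integral_add (hDint.div_const _) ((hh_integrable μ F x').mul_const _),
              integral_div, integral_mul_const]
            have e4 : ∫ y, hh F x' y ∂μ = HH μ F x' := rfl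
            rw [e4, ← hD]
            field_simp
            ring
    have hDle : D ≤ 3 / 2 * dist x x' * ((3 / 4 * δ) ^ (Module.finrank ℝ X) * vv μ) := by
      have hr : 0 ≤ 3 / 4 * δ := by positivity
      rw [← real_ball μ x hr, hD]
      have h6 : ∫ y, |hh F x y - hh F x' y| ∂μ ≤ ∫ y, (closedBall x (3 / 4 * δ)).indicator (fun _ => 3 / 2 * dist x x') y ∂μ := by
        refine integral_mono hDint ?_ fun y => ?_
        · exact (integrable_indicator_iff measurableSet_closedBall).2
            (integrableOn_const (measure_closedBall_lt_top).ne)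
        · show |hh F x y - hh F x' y| ≤ (closedBall x (3 / 4 * δ)).indicator (fun _ => 3 / 2 * dist x x') y
          by_cases hy : y ∈ closedBall x (3 / 4 * δ)
          · rw [indicator_of_mem hy]
            exact abs_hh_sub_le F x x' y
          · rw [indicator_of_notMem hy]
            rw [mem_closedBall, not_le] at hy
            have z1 : hh F x y = 0 := hh_eq_zero F (r := 3 / 4 * δ) (by rw [← hδ]; linarith) hy.le
            have z2 : hh F x' y = 0 := by
              refine hh_eq_zero F le_rfl ?_
              have h4 := dist_triangle y x' x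
              rw [dist_comm x' x] at h4
              linarith
            rw [z1, z2]
            simp
      rw [integral_indicator measurableSet_closedBall, setIntegral_const, smul_eq_mul] at h6
      linarith
    have hHge := HH_ge μ F hx
    rw [← hδ] at hHge
    have hv := vv_pos μ
    have hq : 2 * D / HH μ F x ≤ 12 * 3 ^ (Module.finrank ℝ X) * dist x x' / δ := by
      rw [div_le_div_iff₀ hH hx]
      have e5 : (3 / 4 * δ) ^ (Module.finrank ℝ X) = 3 ^ (Module.finrank ℝ X) * (δ / 4) ^ (Module.finrank ℝ X) := by
        rw [← mul_pow]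
        congr 1
        ring
      rw [e5] at hDle
      have hd0 : 0 ≤ dist x x' := dist_nonneg
      have e6 : 2 * D * δ ≤ 2 * (3 / 2 * dist x x' * (3 ^ (Module.finrank ℝ X) * (δ / 4) ^ (Module.finrank ℝ X) * vv μ)) * δ :=
        mul_le_mul_of_nonneg_right (mul_le_mul_of_nonneg_left hDle (by norm_num)) hx.le
      have e7 : 12 * 3 ^ (Module.finrank ℝ X) * dist x x' * (δ / 4 * ((δ / 4) ^ (Module.finrank ℝ X) * vv μ)) ≤
          12 * 3 ^ (Module.finrank ℝ X) * dist x x' * HH μ F x := mul_le_mul_of_nonneg_left hHge (by positivity)
      refine e6.trans (le_trans (le_of_eq ?_) e7)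
      ring
    calc |AA μ F f x - AA μ F f x'| ≤ 21 / 4 * (L * δ) * (2 * D / HH μ F x) := hbound
      _ ≤ 21 / 4 * (L * δ) * (12 * 3 ^ (Module.finrank ℝ X) * dist x x' / δ) := mul_le_mul_of_nonneg_left hq hKK
      _ = 63 * 3 ^ (Module.finrank ℝ X) * L * dist x x' := by
          field_simp
          ring

end average

end Pool.Agent.Lib.MP_65fa9b_anFD
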