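import Pool.Agent.Lib.MP_65fa9b_anFD.Ext

/-!
# Lipschitz spaces over non-porous subsets of a finite-dimensional space
-/

set_option autoImplicit false
set_option linter.unusedSectionVars false

open Metric Set MeasureTheory Filter Topology

open scoped BoundedContinuousFunction

open Pool.Agent.Lib.MP_65fa9b_an

namespace Pool.Agent.Lib.MP_65fa9b_anFD

variable {X : Type*} [NormedAddCommGroup X] [NormedSpace ℝ X]

section

variable [FiniteDimensional ℝ X] [MeasurableSpace X] [BorelSpace X] (μ : Measure X) [μ.IsAddHaarMeasure]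
  (F : Set X) [Fintype F]

open Classical in
/-- The extension operator. -/
noncomputable def EE (f : F → ℝ) (x : X) : ℝ := if h : x ∈ F then f ⟨x, h⟩ else AA μ F f x

theorem EE_mem (f : F → ℝ) (a : F) : EE μ F f a = f a := by
  unfold EE
  rw [dif_pos a.2]

theorem EE_notMem (f : F → ℝ) {x : X} (hx : x ∉ F) : EE μ F f x = AA μ F f x := by
  unfold EE
  rw [dif_neg hx]

theorem infDist_pos_of [Nonempty F] {x : X} (hx : x ∉ F) : 0 < infDist x F := by
  have hne : F.Nonempty := Set.nonempty_coe_sort.mp inferInstance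
  exact ((F.toFinite.isClosed).notMem_iff_infDist_pos hne).mp hx

theorem EE_lip [Nonempty F] {f : F → ℝ} {L : ℝ} (hL : 0 ≤ L) (hf : ∀ a b, |f a - f b| ≤ L * dist a b) (x x' : X) :
    |EE μ F f x - EE μ F f x'| ≤ 63 * 3 ^ (Module.finrank ℝ X) * L * dist x x' := by
  have h3 : (1 : ℝ) ≤ 3 ^ (Module.finrank ℝ X) := one_le_pow₀ (by norm_num)
  have hone : ∀ (x : X) (a : F), x ∉ F → |EE μ F f x - EE μ F f a| ≤ 63 * 3 ^ (Module.finrank ℝ X) * L * dist x a := by
    intro x a hx
    rw [EE_mem, EE_notMem μ F f hx]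
    refine (AA_near μ F hL hf (infDist_pos_of F hx) a).trans ?_
    have : 0 ≤ L * dist x a := mul_nonneg hL dist_nonneg
    nlinarith
  by_cases hx : x ∈ F
  · by_cases hx' : x' ∈ F
    · have e1 := EE_mem μ F f ⟨x, hx⟩
      have e2 := EE_mem μ F f ⟨x', hx'⟩
      rw [e1, e2]
      refine (hf _ _).trans ?_
      have : 0 ≤ L * dist x x' := mul_nonneg hL dist_nonneg
      rw [Subtype.dist_eq]
      nlinarith
    · have := hone x' ⟨x, hx⟩ hx'
      rw [abs_sub_comm, dist_comm]
      exact this
  · by_cases hx' : x' ∈ F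
    · exact hone x ⟨x', hx'⟩ hx
    · rw [EE_notMem μ F f hx, EE_notMem μ F f hx']
      rcases le_total (infDist x' F) (infDist x F) with h | h
      · exact AA_lip μ F hL hf (infDist_pos_of F hx) (infDist_pos_of F hx') h
      · rw [abs_sub_comm, dist_comm]
        exact AA_lip μ F hL hf (infDist_pos_of F hx') (infDist_pos_of F hx) h

theorem EE_add (f f' : F → ℝ) (x : X) : EE μ F (fun a => f a + f' a) x = EE μ F f x + EE μ F f' x := by
  by_cases hx : x ∈ F
  · unfold EE
    simp only [hx, dif_pos]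
  · rw [EE_notMem μ F _ hx, EE_notMem μ F _ hx, EE_notMem μ F _ hx]
    unfold AA
    rw [← add_div, ← integral_add (hh_mul_integrable μ F f x) (hh_mul_integrable μ F f' x)]
    congr 1
    refine integral_congr_ae (Filter.Eventually.of_forall fun y => ?_)
    show hh F x y * gg F (fun a => f a + f' a) y = hh F x y * gg F f y + hh F x y * gg F f' y
    rw [gg_add]
    ring

theorem EE_smul (c : ℝ) (f : F → ℝ) (x : X) : EE μ F (fun a => c * f a) x = c * EE μ F f x := by
  by_cases hx : x ∈ F
  · unfold EE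
    simp only [hx, dif_pos]
  · rw [EE_notMem μ F _ hx, EE_notMem μ F _ hx]
    unfold AA
    rw [← mul_div_assoc, ← integral_const_mul]
    congr 1
    refine integral_congr_ae (Filter.Eventually.of_forall fun y => ?_)
    show hh F x y * gg F (fun a => c * f a) y = c * (hh F x y * gg F f y)
    rw [gg_smul]
    ring

include μ in
/-- The factorisation. -/
theorem facC_fd (p : F) : FacC (63 * 3 ^ (Module.finrank ℝ X)) (Lip0 F p) (Lip0 X (0 : X)) := by
  have hne : Nonempty F := ⟨p⟩
  have h3 : (1 : ℝ) ≤ 3 ^ (Module.finrank ℝ X) := one_le_pow₀ (by norm_num)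
  have hlip : ∀ f : Lip0 F p, ∀ y y' : X, |EE μ F f y - EE μ F f y'| ≤
      63 * 3 ^ (Module.finrank ℝ X) * ‖f‖ * dist y y' := fun f y y' =>
    EE_lip μ F (norm_nonneg f) (fun a b => f.abs_sub_le a b) y y'
  let J : Lip0 F p →L[ℝ] Lip0 X (0 : X) := LinearMap.mkContinuous
    { toFun := fun f => ⟨fun y => EE μ F f y - EE μ F f 0, sub_self _,
        ⟨63 * 3 ^ (Module.finrank ℝ X) * ‖f‖, by positivity⟩, LipschitzWith.of_dist_le_mul fun y y' => by
          rw [Real.dist_eq, sub_sub_sub_cancel_right]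
          exact hlip f y y'⟩
      map_add' := fun f f' => by
        apply DFunLike.ext
        intro y
        show EE μ F (fun a => f a + f' a) y - EE μ F (fun a => f a + f' a) 0 =
          (EE μ F f y - EE μ F f 0) + (EE μ F f' y - EE μ F f' 0)
        rw [EE_add, EE_add]
        ring
      map_smul' := fun c f => by
        apply DFunLike.ext
        intro y
        show EE μ F (fun a => c * f a) y - EE μ F (fun a => c * f a) 0 = c * (EE μ F f y - EE μ F f 0)
        rw [EE_smul, EE_smul]
        ring }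
    (63 * 3 ^ (Module.finrank ℝ X)) (fun f => by
      refine Lip0.norm_le _ (by positivity) fun y y' => ?_
      show |(EE μ F f y - EE μ F f 0) - (EE μ F f y' - EE μ F f 0)| ≤ _
      rw [sub_sub_sub_cancel_right]
      exact hlip f y y')
  let R : Lip0 X (0 : X) →L[ℝ] Lip0 F p := LinearMap.mkContinuous
    { toFun := fun h => ⟨fun a => h a - h p, sub_self _,
        ‖h‖₊, LipschitzWith.of_dist_le_mul fun a b => by
          rw [Real.dist_eq, sub_sub_sub_cancel_right]
          exact h.abs_sub_le a b⟩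
      map_add' := fun h h' => by
        apply DFunLike.ext
        intro a
        show (h a + h' a) - (h p + h' p) = (h a - h p) + (h' a - h' p)
        ring
      map_smul' := fun c h => by
        apply DFunLike.ext
        intro a
        show c * h a - c * h p = c * (h a - h p)
        ring }
    (63 * 3 ^ (Module.finrank ℝ X)) (fun h => by
      refine Lip0.norm_le _ (by positivity) fun a b => ?_
      show |(h a - h p) - (h b - h p)| ≤ _
      rw [sub_sub_sub_cancel_right]
      refine (h.abs_sub_le a b).trans ?_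
      have : 0 ≤ ‖h‖ * dist a b := mul_nonneg (norm_nonneg _) dist_nonneg
      rw [Subtype.dist_eq] at this ⊢
      nlinarith)
  refine ⟨J, R, fun f => ?_, LinearMap.mkContinuous_norm_le _ (by positivity) _,
    LinearMap.mkContinuous_norm_le _ (by positivity) _⟩
  apply DFunLike.ext
  intro a
  show (EE μ F f a - EE μ F f 0) - (EE μ F f p - EE μ F f 0) = f a
  rw [EE_mem, EE_mem, f.map_base]
  ring

end

/-- The local condition holds in finite-dimensional spaces. -/
theorem localCondition_fd (X : Type*) [NormedAddCommGroup X] [NormedSpace ℝ X] [FiniteDimensional ℝ X] :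
    LocalCondition X := by
  borelize X
  refine ⟨63 * 3 ^ (Module.finrank ℝ X), fun F hF p => ?_⟩
  haveI : Fintype F := hF.fintype
  exact facC_fd (Measure.addHaar (G := X)) F p

/-- Disjoint balls along a ray. -/
theorem ballData_nat [Nontrivial X] : Nonempty (BallData (univ : Set X) ℕ) := by
  obtain ⟨u, hu⟩ := exists_unit (X := X)
  refine ⟨⟨fun i k => (4 * ((Nat.pair i k : ℝ) + 1) ^ 2) • u, fun k => (k : ℝ) + 1, fun k => by positivity, ?_, ?_⟩⟩
  · intro s k x _
    exact ⟨x, mem_univ x, by rw [sub_self, norm_zero]; positivity⟩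
  · have key : ∀ (i k j l : ℕ) (x : X), Nat.pair i k < Nat.pair j l →
        ‖x - (4 * ((Nat.pair i k : ℝ) + 1) ^ 2) • u‖ < 2 * ((k : ℝ) + 1) →
        ‖x - (4 * ((Nat.pair j l : ℝ) + 1) ^ 2) • u‖ < 2 * ((l : ℝ) + 1) → False := by
      intro i k j l x hlt hx hy
      have hk : (k : ℝ) ≤ Nat.pair i k := by exact_mod_cast Nat.right_le_pair i k
      have hl : (l : ℝ) ≤ Nat.pair j l := by exact_mod_cast Nat.right_le_pair j l
      have hlt' : (Nat.pair i k : ℝ) + 1 ≤ Nat.pair j l := by exact_mod_cast hlt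
      have hk0 : (0 : ℝ) ≤ k := Nat.cast_nonneg k
      have e1 : (4 * (((Nat.pair j l : ℝ) + 1) ^ 2 - ((Nat.pair i k : ℝ) + 1) ^ 2)) • u =
          (x - (4 * ((Nat.pair i k : ℝ) + 1) ^ 2) • u) - (x - (4 * ((Nat.pair j l : ℝ) + 1) ^ 2) • u) := by
        rw [mul_sub, sub_smul]
        abel
      have e2 : ‖(4 * (((Nat.pair j l : ℝ) + 1) ^ 2 - ((Nat.pair i k : ℝ) + 1) ^ 2)) • u‖ =
          4 * (((Nat.pair j l : ℝ) + 1) ^ 2 - ((Nat.pair i k : ℝ) + 1) ^ 2) := by
        rw [norm_smul, hu, mul_one, Real.norm_of_nonneg]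
        nlinarith
      have h5 : ‖(4 * (((Nat.pair j l : ℝ) + 1) ^ 2 - ((Nat.pair i k : ℝ) + 1) ^ 2)) • u‖ <
          2 * ((k : ℝ) + 1) + 2 * ((l : ℝ) + 1) := by
        rw [e1]
        exact lt_of_le_of_lt (norm_sub_le _ _) (add_lt_add hx hy)
      rw [e2] at h5
      nlinarith
    rintro ⟨i, k⟩ ⟨j, l⟩ x hx hy
    simp only at hx hy
    rcases lt_trichotomy (Nat.pair i k) (Nat.pair j l) with h | h | h
    · exact (key i k j l x h hx hy).elim
    · have h2 := Nat.pair_eq_pair.mp h
      rw [h2.1, h2.2]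
    · exact (key j l i k x h hy hx).elim

/-- The answer for finite-dimensional spaces. -/
theorem main_fd (X : Type*) [NormedAddCommGroup X] [NormedSpace ℝ X] [FiniteDimensional ℝ X] {M : Set X}
    (hM : ¬ Porous M) (p : M) (q : X) : Nonempty (Lip0 M p ≃L[ℝ] Lip0 X q) := by
  rcases subsingleton_or_nontrivial X with hs | hnt
  · exfalso
    apply hM
    refine ⟨1, one_pos, fun p r hr h => ?_⟩
    have h1 : Metric.ediam (univ : Set X) = 0 := Metric.ediam_subsingleton (Set.subsingleton_of_subsingleton)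
    rw [h1] at h
    have h2 : ENNReal.ofReal r ≤ 0 := h
    have h3 := ENNReal.ofReal_eq_zero.mp (le_antisymm h2 bot_le)
    linarith
  · have : ProperSpace X := FiniteDimensional.proper ℝ X
    have : SecondCountableTopology X := inferInstance
    -- `ℓ_∞(ℕ; V)` is complemented in `V = Lip₀(X)`
    have hWV : Fac (ℕ →ᵇ Lip0 X (0 : X)) (Lip0 X (0 : X)) := by
      obtain ⟨B⟩ := ballData_nat (X := X)
      exact (B.fac ⟨0, mem_univ 0⟩).trans (Fac.of_equiv (univEquiv ⟨0, mem_univ 0⟩))
    have hVU : Fac (Lip0 X (0 : X)) (Lip0 M p) := by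
      obtain ⟨B⟩ := exists_ballData hM
      exact fac_single.trans (B.fac p)
    have hUW : Fac (Lip0 M p) (ℕ →ᵇ Lip0 X (0 : X)) := by
      have hne : Nonempty M := ⟨p⟩
      obtain ⟨C, hC⟩ := facC_FS (localCondition_fd X)
      letI : TopologicalSpace (Finset ℕ) := ⊥
      haveI : DiscreteTopology (Finset ℕ) := ⟨rfl⟩
      have h1 := fac_of_local p (TopologicalSpace.denseSeq M) (TopologicalSpace.denseRange_denseSeq M) C
        fun i => hC _ _ _
      exact h1.trans (fac_of_injective (fun i : Finset ℕ => Encodable.encode i) Encodable.encode_injective)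
    obtain ⟨e1⟩ := decomposition hUW (hWV.trans hVU)
    obtain ⟨e2⟩ := decomposition (fac_single (V := Lip0 X (0 : X)) (I := ℕ)) hWV
    exact ⟨(e1.trans e2.symm).trans (rebaseEquiv (0 : X) q)⟩

end Pool.Agent.Lib.MP_65fa9b_anFD
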